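import Mathlib
import Pool.Agent.H48.Strip

set_option autoImplicit false

namespace Pool.Agent.Results.MP_27ef7a_al.Counterexample

/-- Polycyclic groups: soluble groups all of whose subgroups are finitely generated. -/
def Polycyclic (H : Type) [Group H] : Prop := Group.IsSolvable H ∧ ∀ L : Subgroup H, L.FG

/-- Polycyclic-by-finite groups. -/
def PF (H : Type) [Group H] : Prop :=
  ∃ N : Subgroup H, N.Normal ∧ Polycyclic N ∧ N.FiniteIndex

/-- Nilpotent-by-(polycyclic-by-finite) groups. -/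
def NPF (H : Type) [Group H] : Prop :=
  ∃ (K : Subgroup H) (_ : K.Normal), Group.IsNilpotent K ∧ PF (H ⧸ K)

/-- Every infinite subset has distinct `x, y` with `⟨x, y⁻¹ x y⟩` in the class `NPF`. -/
def Star (G : Type) [Group G] : Prop :=
  ∀ S : Set G, S.Infinite → ∃ x ∈ S, ∃ y ∈ S, x ≠ y ∧ NPF (Subgroup.closure {x, y⁻¹ * x * y})

/-- Soluble-by-finite groups. -/
def SolubleByFinite (G : Type) [Group G] : Prop :=
  ∃ N : Subgroup G, N.Normal ∧ N.FiniteIndex ∧ Group.IsSolvable N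

open Pool.Agent.H48.Strip
open scoped commutatorElement

/-- Powers of two. -/
def μ (k : ℕ) : ℕ := 2 ^ (k + 1)

theorem sub_fg {A : Type} [Group A] (φ : A →* Multiplicative P) (hφ : Function.Injective φ)
    (L : Subgroup A) : L.FG := by
  have h1 : (L.map φ).FG := by
    have h2 := (AddSubgroup.fg_iff_mul_fg _).mp (Submodule.fg_toAddSubgroup
      (IsNoetherian.noetherian (AddSubgroup.toIntSubmodule (L.map φ).toAddSubgroup')))
    simpa using h2
  have := (Group.fg_iff_subgroup_fg _).mpr h1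
  exact (Group.fg_iff_subgroup_fg _).mp (Group.fg_of_surjective
    (f := (L.equivMapOfInjective φ hφ).symm.toMonoidHom) (L.equivMapOfInjective φ hφ).symm.surjective)

theorem sg_two (a : P → ℤˣ) (q : P) (k : ℕ) : ∃ c : ZMod (μ k), 1 - sg a q k = 2 * c := by
  rcases Int.units_eq_one_or (a q) with e | e <;>
    rcases Int.units_eq_one_or (a (q + d k)) with e' | e'
  · exact ⟨0, by simp [sg, e, e']⟩
  · exact ⟨1, by simp [sg, e, e']; ring⟩
  · exact ⟨1, by simp [sg, e, e']; ring⟩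
  · exact ⟨0, by simp [sg, e, e']⟩

theorem pos (x y : GG μ) : NPF (Subgroup.closure {x, y⁻¹ * x * y}) := by
  obtain ⟨S, K, h1, h2⟩ := strip' x y
  set H := Subgroup.closure {x, y⁻¹ * x * y}
  let f : H →* Multiplicative P := τ.comp ((GG μ).subtype.comp H.subtype)
  refine ⟨f.ker, inferInstance, ?_, ⊤, inferInstance, ⟨inferInstance, ?_⟩, inferInstance⟩
  · let R (j : ℕ) : Subgroup H :=
      { carrier := {g | Rot g.1.1 ∧ ∀ q k, ∃ c, g.1.1.r q k = 2 ^ j * c}
        one_mem' := ⟨⟨rfl, fun _ => rfl⟩, fun _ _ => ⟨0, by simp⟩⟩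
        mul_mem' := fun {g h} hg hh => ⟨⟨by simp [hg.1.1, hh.1.1], fun q => by
            simp [hg.1.2, hh.1.2]⟩, fun q k => by
          obtain ⟨c, hc⟩ := hg.2 q k
          obtain ⟨c', hc'⟩ := hh.2 q k
          exact ⟨c + c', by simp [hg.1.1, hc, hc', sg, hg.1.2, mul_add]⟩⟩
        inv_mem' := fun {g} hg => ⟨⟨by simp [hg.1.1], fun q => by simp [hg.1.2]⟩, fun q k => by
          obtain ⟨c, hc⟩ := hg.2 q k
          exact ⟨-c, by simp [hg.1.1, hc, sg, hg.1.2]⟩⟩ }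
    have h3 : ∀ j, f.ker.lowerCentralSeries (j + 1) ≤ R j := by
      intro j
      induction j with
      | zero =>
        rw [Subgroup.lowerCentralSeries_succ, Subgroup.commutator_le]
        exact fun g hg h hh => ⟨rot_comm (g := g.1.1) (h := h.1.1) hg hh,
          fun q k => ⟨_, by rw [pow_zero, one_mul]⟩⟩
      | succ j ih =>
        rw [Subgroup.lowerCentralSeries_succ, Subgroup.commutator_le]
        intro g hg h hh
        refine ⟨rot_comm (g := g.1.1) (h := h.1.1) (ih hg).1.1 hh, fun q k => ?_⟩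
        obtain ⟨c, hc⟩ := (ih hg).2 q k
        obtain ⟨c', hc'⟩ := sg_two h.1.1.a q k
        refine ⟨c' * c, ?_⟩
        change (⁅g.1.1, h.1.1⁆ : Γ μ).r q k = _
        rw [rot_comm_r (h := h.1.1) (ih hg).1 hh, hc, hc']
        ring
    refine (Subgroup.isNilpotent_iff_lowerCentralSeries _).mpr ⟨K + 2, eq_bot_iff.mpr fun g hg => ?_⟩
    obtain ⟨hr, h4⟩ := h3 (K + 1) hg
    refine Subtype.ext (Subtype.ext (rot_one hr fun q k => ?_))
    by_cases hk : K < k
    · exact rot_out h1 (h2 _ g.2) hr q hk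
    · obtain ⟨c, hc⟩ := h4 q k
      have : ((2 ^ (K + 1) : ℕ) : ZMod (μ k)) = 0 :=
        (ZMod.natCast_eq_zero_iff _ _).mpr (pow_dvd_pow 2 (by omega))
      push_cast at this
      rw [hc, this, zero_mul]
  · exact sub_fg ((QuotientGroup.kerLift f).comp (Subgroup.subtype ⊤))
      ((QuotientGroup.kerLift_injective f).comp Subtype.val_injective)

/-- The involutions. -/
def B (q : P) : GG μ := ⟨b q, b_mem q⟩

theorem fin_a (g : GG μ) : {q | g.1.a q ≠ 1}.Finite := by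
  obtain ⟨S, h1, h2⟩ := fin_cond g.2
  exact h1.subset fun q hq => by_contra fun h => hq (h2.1 q h)

theorem kappa (K : Subgroup (GG μ)) [K.Normal] (h : PF (GG μ ⧸ K)) :
    ∃ κ ∈ K, ∃ q, κ.1.t = 0 ∧ κ.1.a q = -1 := by
  obtain ⟨N, hN, ⟨-, h1⟩, h2⟩ := h
  let π := QuotientGroup.mk' K
  obtain ⟨y, hy⟩ := Finite.exists_infinite_fiber
    (fun q : P => (QuotientGroup.mk (π (B q)) : (GG μ ⧸ K) ⧸ N))
  have hI := Set.infinite_coe_iff.mp hy
  obtain ⟨q0, hq0⟩ := hI.nonempty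
  let A (S : Set P) : Subgroup (GG μ) :=
    { carrier := {g | g.1.t = 0 ∧ ∀ q, q ∉ S → g.1.a q = 1}
      one_mem' := ⟨rfl, fun _ _ => rfl⟩
      mul_mem' := fun {g h} hg hh => ⟨by simp [hg.1, hh.1], fun q hq => by
        simp [hg.1, hg.2 q hq, hh.2 q hq]⟩
      inv_mem' := fun {g} hg => ⟨by simp [hg.1], fun q hq => by simp [hg.1, hg.2 q hq]⟩ }
  obtain ⟨T, hT, hf⟩ := (Subgroup.fg_iff _).mp (h1 (((A Set.univ).map π).comap N.subtype))
  have h3 : ∀ x : T, ∃ g : GG μ, g.1.t = 0 ∧ π g = x.1.1 := fun x => by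
    have : x.1 ∈ ((A Set.univ).map π).comap N.subtype := hT ▸ Subgroup.subset_closure x.2
    obtain ⟨g, hg, e⟩ := this
    exact ⟨g, hg.1, e⟩
  choose c hc using h3
  have := hf.to_subtype
  set S := ⋃ x : T, {q | (c x).1.a q ≠ 1} with hS
  have hSf : S.Finite := Set.finite_iUnion fun x => fin_a _
  have h4 : Subgroup.closure T ≤ ((A S).map π).comap N.subtype := by
    rw [Subgroup.closure_le]
    intro x hx
    exact ⟨c ⟨x, hx⟩, ⟨(hc _).1, fun q hq => by_contra fun e =>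
      hq (Set.mem_iUnion.mpr ⟨_, e⟩)⟩, (hc _).2⟩
  obtain ⟨q, hq, hqS⟩ := hI.exists_notMem_finite (hSf.insert q0)
  have h5 : (π (B q0))⁻¹ * π (B q) ∈ N := QuotientGroup.eq.mp (Eq.trans hq0 (Eq.symm hq))
  have h6 : (⟨_, h5⟩ : N) ∈ ((A Set.univ).map π).comap N.subtype :=
    ⟨(B q0)⁻¹ * B q, ⟨by simp [B, b], by simp⟩, by simp⟩
  obtain ⟨g, hg, e⟩ := h4 (hT ▸ h6)
  rw [Set.mem_insert_iff, not_or] at hqS
  refine ⟨g⁻¹ * ((B q0)⁻¹ * B q), QuotientGroup.eq.mp e, q, by simp [hg.1, B, b], ?_⟩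
  simp [hg.1, hg.2 q hqS.2, B, b, hqS.1]

theorem neg : ¬ NPF (GG μ) := by
  rintro ⟨K, hK, h1, h2⟩
  obtain ⟨κ, hκ, q, ht, ha⟩ := kappa K h2
  obtain ⟨n, hn⟩ := (Subgroup.isNilpotent_iff_lowerCentralSeries _).mp h1
  have hinj : Function.Injective fun k : ℕ => q + d k := fun k l e => by
    have := congrArg Prod.fst e
    simp only [d, Prod.fst_add] at this
    omega
  obtain ⟨k, -, hk⟩ := Set.infinite_univ.exists_notMem_finite
    (((fin_a κ).preimage hinj.injOn).union (Set.finite_Iic (n + 2)))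
  simp only [Set.mem_union, Set.mem_preimage, Set.mem_ofPred_eq, Set.mem_Iic, not_or,
    not_not] at hk
  have h3 : ∀ j, ∃ g ∈ K.lowerCentralSeries j, Rot g.1 ∧ g.1.r q k = 2 ^ (j + 2) := by
    have h4 : ∀ g : GG μ, Rot g.1 → Rot (⁅g, κ⁆ : GG μ).1 ∧
        (⁅g, κ⁆ : GG μ).1.r q k = 2 * g.1.r q k := fun g hg => by
      refine ⟨rot_comm hg.1 ht, ?_⟩
      change (⁅g.1, κ.1⁆ : Γ μ).r q k = _
      rw [rot_comm_r hg ht]
      simp only [sg, ha, hk.1]
      simp
      ring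
    intro j
    induction j with
    | zero =>
      have h5 := h4 ⁅B q, B (q + d k)⁆ (rot_comm rfl rfl)
      refine ⟨_, ?_, h5.1, ?_⟩
      · rw [commutatorElement_def]
        exact K.mul_mem (hK.conj_mem _ hκ _) (K.inv_mem hκ)
      · rw [h5.2]
        change 2 * (⁅(b q : Γ μ), (b (q + d k) : Γ μ)⁆ : Γ μ).r q k = _
        rw [bb_r]
        ring
    | succ j ih =>
      obtain ⟨g, h5, h6, h7⟩ := ih
      refine ⟨_, Subgroup.commutator_mem_commutator h5 hκ, (h4 g h6).1, ?_⟩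
      rw [(h4 g h6).2, h7]
      ring
  obtain ⟨g, h5, -, h7⟩ := h3 n
  rw [hn, Subgroup.mem_bot] at h5
  have h8 : ((2 ^ (n + 2) : ℕ) : ZMod (μ k)) = 0 := by
    push_cast
    rw [← h7, h5]
    rfl
  have := (Nat.pow_dvd_pow_iff_le_right one_lt_two).mp ((ZMod.natCast_eq_zero_iff _ _).mp h8)
  omega

theorem result : ∃ (G : Type) (_ : Group G),
    Group.FG G ∧ SolubleByFinite G ∧ Star G ∧ ¬ NPF G := by
  refine ⟨GG μ, inferInstance, inferInstance, ⟨⊤, inferInstance, inferInstance, inferInstance⟩,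
    fun S hS => ?_, neg⟩
  obtain ⟨x, hx, y, hy, hxy⟩ := hS.nontrivial
  exact ⟨x, hx, y, hy, hxy, pos x y⟩

end Pool.Agent.Results.MP_27ef7a_al.Counterexample
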